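import Mathlib
import Pool.Agent.H19.Shearer

set_option autoImplicit false

namespace Pool.Agent.Results.MP_60863d_al.Vanishing

open Filter Topology
open scoped Pointwise ENNReal Classical

universe u v w w'

section defs
variable {G : Type u} (A : Type v) {ι : Type w} [Group G] [AddCommGroup A] [DistribMulAction G A]

/-- A right Følner net (indexed along the filter `l`). -/
def RightFolner (l : Filter ι) (F : ι → Finset G) : Prop :=
  (∀ i, (F i).Nonempty) ∧ ∀ g : G,
    Tendsto (fun i => ((symmDiff ((F i).image (· * g)) (F i)).card : ℝ) / (F i).card) l (𝓝 0)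

variable {A} in
/-- `H_alg(α,X) = lim log |T_{F_i}(α,X)| / |F_i|` with `T_F(α,X) = ∑_{g ∈ F} g • X`; along a
right Følner net the limit exists, so it equals the upper limit. -/
noncomputable def Halg (l : Filter ι) (F : ι → Finset G) (X : Set A) : ℝ≥0∞ :=
  limsup (fun i => ENNReal.ofReal (Real.log (∑ g ∈ F i, g • X).ncard / (F i).card)) l

/-- `h_alg(α)`: the supremum over finite non-empty subsets. -/
noncomputable def halg (l : Filter ι) (F : ι → Finset G) : ℝ≥0∞ :=
  ⨆ (X : Set A) (_ : X.Finite ∧ X.Nonempty), Halg l F X

end defs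

open Pool.Agent.H19.Shearer in
/-- If the restriction to a subgroup of infinite index has finite algebraic entropy, the action
has zero algebraic entropy. -/
theorem result {G : Type u} {A : Type v} [Group G] [AddCommGroup A] [DistribMulAction G A]
    (H : Subgroup G) {ι : Type w} {κ : Type w'} (l : Filter ι) [l.NeBot] (F : ι → Finset G)
    (hF : RightFolner l F) (l' : Filter κ) [l'.NeBot] (E : κ → Finset H) (hE : RightFolner l' E)
    (hH : H.index = 0) (h : halg A l' E < ⊤) : halg A l F = 0 :=
  le_antisymm (iSup₂_le fun X hX => (vanish H hH h.ne fun S h1 h2 =>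
    (sub_le hF.1 (fun g => of_symmDiff (hF.2 g)) H hE.1 hX.1 hX.2 S h1 h2).trans
      (le_iSup₂_of_le _ (sum_fin hX S) le_rfl)).le) bot_le

end Pool.Agent.Results.MP_60863d_al.Vanishing
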